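import Pool.Agent.Y424.LR.NL

/-!
# Pure pairs in all induced subgraphs and small rank give few colours
-/

set_option autoImplicit false
set_option linter.unusedSectionVars false

namespace Pool.Agent.Y424.PP

open Finset
open Pool.Agent.Y424.LR (Sys mat bv Rich)

variable {V : Type} [Fintype V]

/-- Functions of a small space which are mostly zero vanish on a rectangle with half of the sides. -/
theorem purify (R : Submodule ℝ (V → ℝ)) {ρ : ℕ} (hR : Module.finrank ℝ R ≤ ρ) (g : V → V → ℝ)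
    (hg : ∀ x, g x ∈ R) (X Y : Finset V)
    (hbad : 4 * ρ * ((X ×ˢ Y).filter (fun p => g p.1 p.2 ≠ 0)).card ≤ X.card * Y.card) :
    ∃ X' ⊆ X, ∃ Y' ⊆ Y, X.card ≤ 2 * X'.card ∧ Y.card ≤ 2 * Y'.card ∧
      ∀ x ∈ X', ∀ y ∈ Y', g x y = 0 := by
  classical
  rcases Nat.eq_zero_or_pos Y.card with hY0 | hYpos
  · refine ⟨X, Subset.rfl, Y, Subset.rfl, by omega, by omega, fun x _ y hy => ?_⟩
    rw [Finset.card_eq_zero] at hY0
    rw [hY0] at hy
    exact absurd hy (notMem_empty y)
  let bad : V → Finset V := fun x => Y.filter (fun y => g x y ≠ 0)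
  let X' : Finset V := X.filter (fun x => 2 * ρ * (bad x).card ≤ Y.card)
  have hsum : ∑ x ∈ X, (bad x).card = ((X ×ˢ Y).filter (fun p => g p.1 p.2 ≠ 0)).card := by
    rw [card_filter, sum_product]
    refine sum_congr rfl fun x _ => ?_
    rw [card_filter]
  have hX' : X.card ≤ 2 * X'.card := by
    have h1 : X'.card + (X.filter (fun x => ¬ 2 * ρ * (bad x).card ≤ Y.card)).card = X.card :=
      card_filter_add_card_filter_not (s := X) (fun x => 2 * ρ * (bad x).card ≤ Y.card)
    obtain ⟨B, hB⟩ : ∃ B, B = X.filter (fun x => ¬ 2 * ρ * (bad x).card ≤ Y.card) := ⟨_, rfl⟩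
    rw [← hB] at h1
    have h2 : B.card * Y.card ≤ ∑ x ∈ B, 2 * ρ * (bad x).card := by
      rw [← smul_eq_mul, ← sum_const]
      refine sum_le_sum fun x hx => ?_
      rw [hB] at hx
      have := (mem_filter.1 hx).2
      omega
    have h3 : ∑ x ∈ B, 2 * ρ * (bad x).card ≤ ∑ x ∈ X, 2 * ρ * (bad x).card := by
      refine sum_le_sum_of_subset ?_
      rw [hB]
      exact filter_subset _ _
    have e3 : ∑ x ∈ X, 2 * ρ * (bad x).card =
        2 * ρ * ((X ×ˢ Y).filter (fun p => g p.1 p.2 ≠ 0)).card := by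
      rw [← hsum, mul_sum]
    rw [e3] at h3
    have h4 : 2 * (B.card * Y.card) ≤ X.card * Y.card := by
      calc 2 * (B.card * Y.card)
          ≤ 2 * (2 * ρ * ((X ×ˢ Y).filter (fun p => g p.1 p.2 ≠ 0)).card) :=
            Nat.mul_le_mul_left _ (h2.trans h3)
        _ = 4 * ρ * ((X ×ˢ Y).filter (fun p => g p.1 p.2 ≠ 0)).card := by ring
        _ ≤ X.card * Y.card := hbad
    have h5 : 2 * B.card ≤ X.card := by
      have h6 : (2 * B.card) * Y.card ≤ X.card * Y.card := by
        rw [mul_assoc]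
        exact h4
      exact Nat.le_of_mul_le_mul_right h6 hYpos
    omega
  obtain ⟨κ, a, ha, hspan, hli⟩ := exists_linearIndependent' ℝ (fun x : X' => g x)
  have : Finite κ := Finite.of_injective a ha
  have : Fintype κ := Fintype.ofFinite κ
  have hκ : Fintype.card κ ≤ ρ := by
    have h8 : LinearIndependent ℝ (fun k : κ => (⟨g (a k), hg _⟩ : R)) := by
      apply LinearIndependent.of_comp R.subtype
      exact hli
    exact h8.fintype_card_le_finrank.trans hR
  let Y' : Finset V := Y.filter (fun y => ∀ k : κ, g (a k) y = 0)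
  have hY' : Y.card ≤ 2 * Y'.card := by
    have h1 : Y'.card + (Y.filter (fun y => ¬ ∀ k : κ, g (a k) y = 0)).card = Y.card :=
      card_filter_add_card_filter_not (s := Y) (fun y => ∀ k : κ, g (a k) y = 0)
    have h2 : Y.filter (fun y => ¬ ∀ k : κ, g (a k) y = 0) ⊆
        (univ : Finset κ).biUnion (fun k => bad (a k)) := by
      intro y hy
      obtain ⟨hy1, hy2⟩ := mem_filter.1 hy
      push Not at hy2
      obtain ⟨k, hk⟩ := hy2
      exact mem_biUnion.2 ⟨k, mem_univ _, mem_filter.2 ⟨hy1, hk⟩⟩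
    have h3 : (Y.filter (fun y => ¬ ∀ k : κ, g (a k) y = 0)).card ≤
        ∑ k : κ, (bad (a k)).card := (card_le_card h2).trans card_biUnion_le
    obtain ⟨D, hD⟩ : ∃ D, D = (Y.filter (fun y => ¬ ∀ k : κ, g (a k) y = 0)).card := ⟨_, rfl⟩
    rw [← hD] at h1 h3
    have h4 : 2 * ρ * D ≤ ρ * Y.card := by
      calc 2 * ρ * D ≤ 2 * ρ * ∑ k : κ, (bad (a k)).card := Nat.mul_le_mul_left _ h3
        _ = ∑ k : κ, 2 * ρ * (bad (a k)).card := by rw [mul_sum]
        _ ≤ ∑ _k : κ, Y.card := sum_le_sum fun k _ => (mem_filter.1 (a k).2).2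
        _ = Fintype.card κ * Y.card := by rw [sum_const, card_univ, smul_eq_mul]
        _ ≤ ρ * Y.card := Nat.mul_le_mul_right _ hκ
    rcases Nat.eq_zero_or_pos ρ with h0 | h0
    · have h5 : Fintype.card κ = 0 := by omega
      have h6 : IsEmpty κ := Fintype.card_eq_zero_iff.1 h5
      have h7 : D = 0 := by
        have : ∑ k : κ, (bad (a k)).card = 0 := by simp
        omega
      omega
    · have h5 : 2 * D ≤ Y.card := by
        have h6 : ρ * (2 * D) ≤ ρ * Y.card := by
          calc ρ * (2 * D) = 2 * ρ * D := by ring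
            _ ≤ ρ * Y.card := h4
        exact Nat.le_of_mul_le_mul_left h6 h0
      omega
  refine ⟨X', filter_subset _ _, Y', filter_subset _ _, hX', hY', fun x hx y hy => ?_⟩
  have h1 : g x ∈ Submodule.span ℝ (Set.range ((fun x : X' => g x) ∘ a)) := by
    rw [hspan]
    exact Submodule.subset_span ⟨⟨x, hx⟩, rfl⟩
  have h2 : ∀ w ∈ Submodule.span ℝ (Set.range ((fun x : X' => g x) ∘ a)), w y = 0 := by
    intro w hw
    induction hw using Submodule.span_induction with
    | mem w hw =>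
      obtain ⟨k, rfl⟩ := hw
      exact (mem_filter.1 hy).2 k
    | zero => rfl
    | add p q _ _ hp hq => rw [Pi.add_apply, hp, hq, add_zero]
    | smul c p _ hp => rw [Pi.smul_apply, hp, smul_zero]
  exact h2 _ h1

/-- Every non-independent set of vertices has a pure pair with sides of proportion `1 / c`. -/
def HasPure (F : V → V → Bool) (c : ℕ) : Prop :=
  ∀ A : Finset V, (∃ x ∈ A, ∃ y ∈ A, F x y = true) →
    ∃ X ⊆ A, ∃ Y ⊆ A, A.card ≤ c * X.card ∧ A.card ≤ c * Y.card ∧
      ∃ b, ∀ x ∈ X, ∀ y ∈ Y, F x y = b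

theorem indep_of_no_sys {F : V → V → Bool} (hsym : ∀ x y, F x y = F y x)
    (hirr : ∀ x, F x x = false) {A : Finset V} (h : ¬ Sys F 1 A A) :
    ∀ x ∈ A, ∀ y ∈ A, F x y = false := by
  intro x hx y hy
  have h1 := Pool.Agent.Y424.LR.second_diff h hx hy hy hx
  rw [hirr, hirr, hsym y x] at h1
  cases hxy : F x y
  · rfl
  · exfalso
    rw [hxy] at h1
    simp only [bv, if_true] at h1
    norm_num at h1

theorem indep_set {F : V → V → Bool} (hsym : ∀ x y, F x y = F y x) (hirr : ∀ x, F x x = false)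
    {c : ℕ} (hc : 1 ≤ c) (hF : HasPure F c) : ∀ (k : ℕ) (A : Finset V), A.Nonempty →
    ¬ Sys F (2 ^ k) A A →
    ∃ I ⊆ A, A.card ≤ c ^ k * I.card ∧ ∀ x ∈ I, ∀ y ∈ I, F x y = false := by
  classical
  intro k
  induction k with
  | zero =>
    intro A _ h
    exact ⟨A, Subset.rfl, by rw [pow_zero, one_mul], indep_of_no_sys hsym hirr h⟩
  | succ k ih =>
    intro A hA h
    by_cases hind : ∃ x ∈ A, ∃ y ∈ A, F x y = true
    · obtain ⟨X, hX, Y, hY, h1, h2, b, hb⟩ := hF A hind
      have hpos : 0 < A.card := card_pos.2 hA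
      have key : ∀ Z : Finset V, Z ⊆ A → A.card ≤ c * Z.card → ¬ Sys F (2 ^ k) Z Z →
          ∃ I ⊆ A, A.card ≤ c ^ (k + 1) * I.card ∧ ∀ x ∈ I, ∀ y ∈ I, F x y = false := by
        intro Z hZ hcard hsys
        have hZn : Z.Nonempty := by
          rw [← card_pos]
          by_contra h0
          have : Z.card = 0 := by omega
          rw [this, mul_zero] at hcard
          omega
        obtain ⟨I, hI, h3, h4⟩ := ih Z hZn hsys
        refine ⟨I, hI.trans hZ, ?_, h4⟩
        calc A.card ≤ c * Z.card := hcard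
          _ ≤ c * (c ^ k * I.card) := Nat.mul_le_mul_left _ h3
          _ = c ^ (k + 1) * I.card := by ring
      by_cases hs1 : Sys F (2 ^ k) X X
      · by_cases hs2 : Sys F (2 ^ k) Y Y
        · exfalso
          apply h
          have h5 := Pool.Agent.Y424.LR.Sys.add hb hX hY (hs1.mono Subset.rfl hX)
            (hs2.mono hY Subset.rfl)
          have h6 : 2 ^ (k + 1) = 2 ^ k + 2 ^ k := by ring
          rw [h6]
          exact h5
        · exact key Y hY h2 hs2
      · exact key X hX h1 hs1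
    · refine ⟨A, Subset.rfl, Nat.le_mul_of_pos_left _ (Nat.pow_pos (by omega)), ?_⟩
      intro x hx y hy
      by_contra h0
      exact hind ⟨x, hx, y, hy, by simpa using h0⟩

/-- greedy colouring with large independent sets -/
theorem colour {F : V → V → Bool} {M : ℕ} (hM : 1 ≤ M)
    (h : ∀ A : Finset V, A.Nonempty →
      ∃ I ⊆ A, A.card ≤ M * I.card ∧ ∀ x ∈ I, ∀ y ∈ I, F x y = false) :
    ∀ (t : ℕ) (A : Finset V), A.card * (M - 1) ^ t < M ^ t →
    ∃ f : V → ℕ, (∀ x ∈ A, f x < t) ∧ ∀ x ∈ A, ∀ y ∈ A, f x = f y → F x y = false := by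
  classical
  intro t
  induction t with
  | zero =>
    intro A hA
    rw [pow_zero, pow_zero, mul_one] at hA
    have h0 : A = ∅ := by
      rw [← Finset.card_eq_zero]
      omega
    subst h0
    exact ⟨fun _ => 0, fun x hx => absurd hx (notMem_empty x),
      fun x hx => absurd hx (notMem_empty x)⟩
  | succ t ih =>
    intro A hA
    rcases A.eq_empty_or_nonempty with h0 | h0
    · subst h0
      exact ⟨fun _ => 0, fun x hx => absurd hx (notMem_empty x),
        fun x hx => absurd hx (notMem_empty x)⟩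
    · obtain ⟨I, hI, h1, h2⟩ := h A h0
      have h3 : (A \ I).card + I.card = A.card := card_sdiff_add_card_eq_card hI
      have h4 : (A \ I).card * M ≤ A.card * (M - 1) := by
        obtain ⟨e, rfl⟩ : ∃ e, M = e + 1 := ⟨M - 1, by omega⟩
        rw [Nat.add_sub_cancel]
        nlinarith
      have h5 : (A \ I).card * (M - 1) ^ t < M ^ t := by
        have h6 : ((A \ I).card * (M - 1) ^ t) * M < M ^ t * M := by
          calc ((A \ I).card * (M - 1) ^ t) * M = ((A \ I).card * M) * (M - 1) ^ t := by ring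
            _ ≤ (A.card * (M - 1)) * (M - 1) ^ t := Nat.mul_le_mul_right _ h4
            _ = A.card * (M - 1) ^ (t + 1) := by ring
            _ < M ^ (t + 1) := hA
            _ = M ^ t * M := by ring
        exact Nat.lt_of_mul_lt_mul_right h6
      obtain ⟨f, hf1, hf2⟩ := ih (A \ I) h5
      refine ⟨fun x => if x ∈ I then t else f x, fun x hx => ?_, fun x hx y hy hxy => ?_⟩
      · by_cases hxI : x ∈ I
        · simp only [hxI, if_true]
          omega
        · simp only [hxI, if_false]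
          have := hf1 x (mem_sdiff.2 ⟨hx, hxI⟩)
          omega
      · by_cases hxI : x ∈ I <;> by_cases hyI : y ∈ I
        · exact h2 x hxI y hyI
        · simp only [hxI, hyI, if_true, if_false] at hxy
          have := hf1 y (mem_sdiff.2 ⟨hy, hyI⟩)
          omega
        · simp only [hxI, hyI, if_true, if_false] at hxy
          have := hf1 x (mem_sdiff.2 ⟨hx, hxI⟩)
          omega
        · simp only [hxI, hyI, if_false] at hxy
          exact hf2 x (mem_sdiff.2 ⟨hx, hxI⟩) y (mem_sdiff.2 ⟨hy, hyI⟩) hxy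

/-- **Main bound.** -/
theorem main {F : V → V → Bool} (hsym : ∀ x y, F x y = F y x) (hirr : ∀ x, F x x = false)
    (htw : ∀ x y, F x = F y → x = y) {c : ℕ} (hc : 1 ≤ c) (hF : HasPure F c) :
    ∃ f : V → ℕ, (∀ x, f x < c ^ (Nat.log 2 (mat F).rank + 1) * ((mat F).rank + 1)) ∧
      ∀ x y, f x = f y → F x y = false := by
  classical
  obtain ⟨r, hr⟩ : ∃ r, r = (mat F).rank := ⟨_, rfl⟩
  rw [← hr]
  obtain ⟨M, hM⟩ : ∃ M, M = c ^ (Nat.log 2 r + 1) := ⟨_, rfl⟩
  rw [← hM]
  have hM1 : 1 ≤ M := by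
    rw [hM]
    exact Nat.one_le_pow _ _ hc
  have hind : ∀ A : Finset V, A.Nonempty →
      ∃ I ⊆ A, A.card ≤ M * I.card ∧ ∀ x ∈ I, ∀ y ∈ I, F x y = false := by
    intro A hA
    rw [hM]
    refine indep_set hsym hirr hc hF _ A hA ?_
    intro hs
    have h1 := hs.le_rank
    rw [← hr] at h1
    have h2 : r < 2 ^ (Nat.log 2 r + 1) := Nat.lt_pow_succ_log_self (by norm_num) r
    omega
  obtain ⟨X₀, π, hX, hπ⟩ := Pool.Agent.Y424.LR.rows F
  rw [← hr] at hX
  have hn : (univ : Finset V).card ≤ 2 ^ r := by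
    refine le_trans (card_le_card ?_) hX
    intro x _
    have h1 := htw _ _ (hπ x).2
    rw [← h1]
    exact (hπ x).1
  have hcard : (univ : Finset V).card * (M - 1) ^ (M * (r + 1)) < M ^ (M * (r + 1)) := by
    have h1 := Pool.Agent.Y424.LR.half_pow' hM1 (r + 1)
    rcases Nat.eq_zero_or_pos ((M - 1) ^ (M * (r + 1))) with h0 | h0
    · rw [h0, mul_zero]
      exact Nat.pow_pos (by omega)
    · calc (univ : Finset V).card * (M - 1) ^ (M * (r + 1))
          ≤ 2 ^ r * (M - 1) ^ (M * (r + 1)) := Nat.mul_le_mul_right _ hn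
        _ < 2 ^ (r + 1) * (M - 1) ^ (M * (r + 1)) :=
            Nat.mul_lt_mul_of_pos_right (Nat.pow_lt_pow_right (by norm_num) (by omega)) h0
        _ ≤ M ^ (M * (r + 1)) := h1
  obtain ⟨f, hf1, hf2⟩ := colour hM1 hind (M * (r + 1)) univ hcard
  exact ⟨f, fun x => hf1 x (mem_univ _), fun x y => hf2 x (mem_univ _) y (mem_univ _)⟩

theorem rich_pure {F : V → V → Bool} {c : ℕ} (h : Rich F c) : HasPure F c := by
  intro A hA
  obtain ⟨x, hx, _⟩ := hA
  obtain ⟨X, hX, Y, hY, h1, h2, h3⟩ := h A A ⟨x, hx⟩ ⟨x, hx⟩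
  exact ⟨X, hX, Y, hY, h1, h2, h3⟩

/-- Almost pure pairs can be made pure. -/
theorem pure_of_almost {F : V → V → Bool} {c : ℕ}
    (h : ∀ A : Finset V, (∃ x ∈ A, ∃ y ∈ A, F x y = true) →
      ∃ X ⊆ A, ∃ Y ⊆ A, A.card ≤ c * X.card ∧ A.card ≤ c * Y.card ∧
      ∃ b, 4 * ((mat F).rank + 1) * ((X ×ˢ Y).filter (fun p => F p.1 p.2 ≠ b)).card ≤
        X.card * Y.card) : HasPure F (2 * c) := by
  classical
  intro A hA
  obtain ⟨X, hX, Y, hY, h1, h2, b, hb⟩ := h A hA
  -- the space spanned by the rows and the constant function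
  let R0 : Submodule ℝ (V → ℝ) := Submodule.span ℝ (Set.range (mat F).row)
  let C0 : Submodule ℝ (V → ℝ) := Submodule.span ℝ {fun _ => (1 : ℝ)}
  have hR0 : Module.finrank ℝ R0 ≤ (mat F).rank := by
    rw [Matrix.rank_eq_finrank_span_row]
  have hC0 : Module.finrank ℝ C0 ≤ 1 := by
    have := finrank_span_le_card (R := ℝ) ({fun _ => (1 : ℝ)} : Set (V → ℝ))
    simpa using this
  have hR : Module.finrank ℝ (R0 ⊔ C0 : Submodule ℝ (V → ℝ)) ≤ (mat F).rank + 1 :=
    (Submodule.finrank_add_le_finrank_add_finrank R0 C0).trans (Nat.add_le_add hR0 hC0)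
  have hg : ∀ x, (fun y => bv (F x y) - bv b) ∈ (R0 ⊔ C0 : Submodule ℝ (V → ℝ)) := by
    intro x
    have e : (fun y => bv (F x y) - bv b) = (mat F).row x - (bv b) • (fun _ => (1 : ℝ)) := by
      funext y
      simp [mat]
    rw [e]
    exact Submodule.sub_mem _ (Submodule.mem_sup_left (Submodule.subset_span ⟨x, rfl⟩))
      (Submodule.mem_sup_right (Submodule.smul_mem _ _ (Submodule.subset_span rfl)))
  have hfil : (X ×ˢ Y).filter (fun p => (fun x y => bv (F x y) - bv b) p.1 p.2 ≠ 0) =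
      (X ×ˢ Y).filter (fun p => F p.1 p.2 ≠ b) := by
    refine filter_congr fun p _ => ?_
    constructor
    · intro h3 h4
      exact h3 (by simp only [h4, sub_self])
    · intro h3 h4
      exact h3 (Pool.Agent.Y424.LR.bv_inj (sub_eq_zero.1 h4))
  obtain ⟨X', hX', Y', hY', h3, h4, h5⟩ := purify (R0 ⊔ C0) hR (fun x y => bv (F x y) - bv b)
    hg X Y (by rw [hfil]; exact hb)
  refine ⟨X', hX'.trans hX, Y', hY'.trans hY, ?_, ?_, b, fun x hx y hy =>
    Pool.Agent.Y424.LR.bv_inj (sub_eq_zero.1 (h5 x hx y hy))⟩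
  · calc A.card ≤ c * X.card := h1
      _ ≤ c * (2 * X'.card) := Nat.mul_le_mul_left _ h3
      _ = 2 * c * X'.card := by ring
  · calc A.card ≤ c * Y.card := h2
      _ ≤ c * (2 * Y'.card) := Nat.mul_le_mul_left _ h4
      _ = 2 * c * Y'.card := by ring

end Pool.Agent.Y424.PP
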